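import Pool.Agent.W973.SRR.Defs

/-!
# SRR-MEM (for helper973): membership in NP
-/

set_option autoImplicit false

namespace Pool.Agent.W561.SRR

open Pool.Agent.W973.SRR Pool.Agent.NPC

theorem size_le (x : ℕ) : x.size ≤ x := by
  rw [Nat.size_le]
  exact Nat.lt_two_pow_self

theorem list_le (l : List ℕ) (n : ℕ) (h1 : l.length ≤ n) (h2 : ∀ x ∈ l, x ≤ n) :
    sz l ≤ n * (4 * n + 2) + 1 := by
  have h := sz_le_length_mul l (4 * n + 1) (fun a ha => by
    have h3 := sz_nat_le a
    have h4 := size_le a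
    have h5 := h2 a ha
    omega)
  have h6 : l.length * (4 * n + 2) ≤ n * (4 * n + 2) := Nat.mul_le_mul_right _ h1
  exact h.trans (Nat.succ_le_succ h6)

theorem prefs_le (P : List (List ℕ)) (n : ℕ) (h : IsPrefs n P) :
    sz P ≤ n * (n * (4 * n + 2) + 2) + 1 := by
  obtain ⟨h1, h2⟩ := h
  have h3 := sz_le_length_mul P (n * (4 * n + 2) + 1) (fun l hl => by
    obtain ⟨a, ha, rfl⟩ := List.getElem_of_mem hl
    have h4 := h2 a (by omega)
    have h5 : P.getD a [] = P[a] := by simp [List.getD, ha]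
    rw [h5] at h4
    refine list_le _ _ ?_ ?_
    · rw [h4.length_eq]
      refine (List.length_filter_le _ _).trans ?_
      simp
    · intro x hx
      have h6 := h4.mem_iff.1 hx
      simp only [List.mem_filter, List.mem_range] at h6
      omega)
  rw [h1] at h3
  exact h3

theorem mem (h1 : S_MATB) (h2 : S_PREFB) (h3 : S_STABB) (h4 : S_PVER) : S_MEM := by
  refine inNPP_of (β := List (List ℕ)) (R := verB) h4
    (Polynomial.X * (Polynomial.X * (4 * Polynomial.X + 2) + 2) + 1) fun I => ?_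
  have key : ∀ P : List (List ℕ), verB (I, P) = true ↔
      Valid I ∧ IsPrefs I.1.length P ∧ ∀ M ∈ I.2, Stable I.1.length P M := by
    intro P
    simp only [verB, Bool.and_eq_true, List.all_eq_true, h1 _ _, h2 _ _, h3 _ _ _, Valid, and_assoc]
  constructor
  · rintro ⟨hV, P, hP, hM⟩
    refine ⟨P, ?_, (key P).2 ⟨hV, hP, hM⟩⟩
    have g1 := prefs_le P _ hP
    have g4 : I.1.length ≤ sz I := by
      have g5 := length_lt_sz I.1
      have g6 : sz I = sz I.1 + sz I.2 + 1 := sz_pair I.1 I.2
      omega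
    refine g1.trans ?_
    simp only [Polynomial.eval_add, Polynomial.eval_mul, Polynomial.eval_X, Polynomial.eval_ofNat,
      Polynomial.eval_one]
    have g7 : I.1.length * (4 * I.1.length + 2) ≤ sz I * (4 * sz I + 2) :=
      Nat.mul_le_mul g4 (by omega)
    have g8 : I.1.length * (I.1.length * (4 * I.1.length + 2) + 2) ≤
        sz I * (sz I * (4 * sz I + 2) + 2) := Nat.mul_le_mul g4 (by omega)
    omega
  · rintro ⟨P, -, h⟩
    obtain ⟨h5, h6, h7⟩ := (key P).1 h
    exact ⟨h5, P, h6, h7⟩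

end Pool.Agent.W561.SRR
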